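import Pool.Agent.H93.GT.Targets
import Pool.Agent.H23.ET.ALL

/-!
# Row WPO of the board `gdi_modules`: the positive half of the dichotomy
-/

set_option autoImplicit false

namespace Pool.Agent.H5.GT

open MeasureTheory AddCircle Filter Topology
open Pool.Agent.H87.Synth Pool.Agent.H23.Synth Pool.Agent.H93.GT

/-- the approximation property -/
theorem approx_cross (r : Setoid ℤ) (w : ℕ → ℝ) (hpos : ∀ n, 0 < w n) (hmono : Monotone w)
    (hdiv : ¬ Summable fun n => 1 / w n) (h : Cross r w) : Approx r := by
  classical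
  intro f hf1 hf2 ε hε
  set a : ℕ → ℝ := fun n => 1 / w n with ha
  have ha0 : ∀ n, 0 < a n := fun n => by have := hpos n; simp only [ha]; positivity
  have hanti : Antitone a := by
    intro m n hmn
    simp only [ha]
    have := hpos m
    have := hmono hmn
    gcongr
  have hT : Tendsto (fun N => ∑ i ∈ Finset.range N, a i) atTop atTop :=
    (not_summable_iff_tendsto_nat_atTop_of_nonneg fun n => (ha0 n).le).mp hdiv
  obtain ⟨I, hI⟩ := Metric.tendsto_atTop.mp (tendsto_fejer f) (ε / 4) (by positivity)
  set C := 2 * ‖f‖ * ∑ i ∈ Finset.range I, (i + 1) * a i with hC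
  have hC0 : 0 ≤ C := by
    have : 0 ≤ ∑ i ∈ Finset.range I, ((i : ℝ) + 1) * a i :=
      Finset.sum_nonneg fun i _ => mul_nonneg (by positivity) (ha0 i).le
    positivity
  obtain ⟨N, hN⟩ := (hT.eventually_ge_atTop (1 + 4 * C / ε + 64 * ‖f‖ ^ 2 / ε ^ 2)).exists
  set T := ∑ i ∈ Finset.range N, a i with hTdef
  have hp1 : 0 ≤ 4 * C / ε := by positivity
  have hp2 : 0 ≤ 64 * ‖f‖ ^ 2 / ε ^ 2 := by positivity
  have hT1 : 1 ≤ T := by linarith
  have hT0 : 0 < T := by linarith
  set κ : ℕ → ℝ := fun k => if k < N then a k / T else 0 with hκ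
  have hκN : κ N = 0 := by simp [hκ]
  have hκ0 : ∀ i, 0 ≤ κ i := by
    intro i
    simp only [hκ]
    split_ifs
    · have := ha0 i; positivity
    · exact le_rfl
  have hκanti : ∀ i, κ (i + 1) ≤ κ i := by
    intro i
    simp only [hκ]
    by_cases h1 : i + 1 < N
    · rw [if_pos h1, if_pos (by omega)]
      have := hanti (Nat.le_succ i)
      gcongr
    · rw [if_neg h1]
      exact hκ0 i
  have hκsum : ∑ j ∈ Finset.range N, κ j = 1 := by
    have : ∀ j ∈ Finset.range N, κ j = a j / T := by
      intro j hj
      simp only [hκ]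
      rw [if_pos (Finset.mem_range.mp hj)]
    rw [Finset.sum_congr rfl this, ← Finset.sum_div, ← hTdef, div_self hT0.ne']
  have hκle : ∀ i, κ i ≤ a i / T := by
    intro i
    simp only [hκ]
    split_ifs
    · exact le_rfl
    · have := ha0 i; positivity
  have hκlt : ∀ j, j < N → κ j = a j / T := by
    intro j hj
    simp only [hκ]
    rw [if_pos hj]
  clear_value κ
  -- first error
  have herr1 : ‖Psi κ N f - f‖ ≤ ε / 2 := by
    refine (norm_Psi_sub_le hκN hκanti hκsum hκ0 f (ε := ε / 4) (I := I)
      (fun i hi => ?_) (by positivity)).trans ?_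
    · have := hI i hi
      rw [dist_eq_norm] at this
      exact this.le
    · have h1 : ∑ i ∈ Finset.range I, ((i : ℝ) + 1) * κ i ≤
          (∑ i ∈ Finset.range I, ((i : ℝ) + 1) * a i) / T := by
        rw [Finset.sum_div]
        apply Finset.sum_le_sum
        intro i _
        rw [mul_div_assoc]
        exact mul_le_mul_of_nonneg_left (hκle i) (by positivity)
      have h2 : 2 * ‖f‖ * ∑ i ∈ Finset.range I, ((i : ℝ) + 1) * κ i ≤ C / T := by
        rw [hC, mul_div_assoc]
        exact mul_le_mul_of_nonneg_left h1 (by positivity)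
      have h3 : C / T ≤ ε / 4 := by
        rw [div_le_iff₀ hT0]
        have : 4 * C / ε ≤ T := by linarith
        rw [div_le_iff₀ hε] at this
        linarith
      linarith
  -- the polynomial
  set ψ : ℕ → ℝ := fun k => ∑ j ∈ Finset.Ico k N, κ j with hψ
  set M : ℕ := N + ⌊w N⌋₊ + 1 with hM
  have hclose : ∀ n : ℤ, {k | r n k}.Finite → mmin r n < N → N < n.natAbs →
      (n.natAbs : ℝ) ≤ mmin r n + w N := by
    intro n hn h1 h2
    have h3 := h N {n} (by
      intro n' hn'
      rw [Finset.mem_singleton] at hn'
      subst hn'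
      exact ⟨hn, h1.le, h2⟩)
    rw [Finset.sum_singleton] at h3
    have h4 : mn r n = mmin r n := rfl
    rw [h4] at h3
    linarith
  set g : ℤ → ℂ := fun n => if {k | r n k}.Finite then (ψ (mmin r n) : ℂ) * coeff f n else 0
    with hg
  have hgsupp : ∀ n, g n ≠ 0 → n ∈ Finset.Icc (-(M : ℤ)) M := by
    intro n hn
    simp only [hg] at hn
    by_cases hfin : {k | r n k}.Finite
    · rw [if_pos hfin] at hn
      have hlt : mmin r n < N := by
        by_contra hge
        apply hn
        have : ψ (mmin r n) = 0 := by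
          simp only [hψ]
          rw [Finset.Ico_eq_empty (by omega), Finset.sum_empty]
        rw [this]; simp
      have h3 : w N < ⌊w N⌋₊ + 1 := Nat.lt_floor_add_one _
      have h4 : (mmin r n : ℝ) ≤ N := by exact_mod_cast hlt.le
      have h5 : (n.natAbs : ℝ) ≤ M := by
        rcases lt_or_ge N n.natAbs with h | h
        · have h1 := hclose n hfin hlt h
          rw [hM]
          push_cast
          linarith
        · have h7 : (n.natAbs : ℝ) ≤ N := by exact_mod_cast h
          have h8 := hpos N
          rw [hM]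
          push_cast
          linarith
      have h6 : n.natAbs ≤ M := by exact_mod_cast h5
      rw [Finset.mem_Icc]
      omega
    · rw [if_neg hfin] at hn
      exact absurd rfl hn
  set c : ℤ →₀ ℂ := Finsupp.onFinset (Finset.Icc (-(M : ℤ)) M) g hgsupp with hc
  have hcg : ∀ n, c n = g n := fun n => rfl
  refine ⟨c, ?_, ?_⟩
  · intro m n hmn
    rw [hcg, hcg]
    simp only [hg]
    rw [cls_congr hmn, mmin_congr hmn]
    have : coeff f m = coeff f n := hf1 m n hmn
    rw [this]
  · set s := Finset.Icc (-(M : ℤ)) M with hs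
    have hsum : (∑ n ∈ c.support, c n • (fourierLp 1 n : L1)) = ∑ n ∈ s, g n • ex n := by
      refine Finset.sum_subset ?_ ?_
      · intro n hn
        exact hgsupp n (by rw [← hcg]; exact Finsupp.mem_support_iff.mp hn)
      · intro n _ hn
        rw [Finsupp.notMem_support_iff.mp hn, zero_smul]
    rw [hsum]
    have hPsi : Psi κ N f = ∑ n ∈ s, ((ψ n.natAbs : ℂ) * coeff f n) • ex n := by
      apply ext_coeff
      intro n
      rw [coeff_Psi hκN, coeff_sum]
      simp only [coeff_smul, coeff_ex]
      simp only [mul_ite, mul_one, mul_zero, Finset.sum_ite_eq']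
      by_cases hn : n ∈ s
      · rw [if_pos hn]
      · rw [if_neg hn]
        have : N ≤ n.natAbs := by
          rw [hs, Finset.mem_Icc] at hn
          omega
        rw [Finset.Ico_eq_empty (by omega), Finset.sum_empty]
        simp
    set v : ℤ → ℂ := fun n => (ψ n.natAbs : ℂ) * coeff f n - g n with hv
    have hdiff : Psi κ N f - ∑ n ∈ s, g n • ex n = ∑ n ∈ s, v n • ex n := by
      rw [hPsi, ← Finset.sum_sub_distrib]
      refine Finset.sum_congr rfl fun n _ => ?_
      rw [← sub_smul]
    -- the main estimate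
    set X : ℤ → ℕ → Prop := fun n j => {k | r n k}.Finite ∧ mmin r n ≤ j ∧ j < n.natAbs with hX
    have hvn : ∀ n ∈ s, ‖v n‖ ^ 2 ≤ ‖f‖ ^ 2 *
        ∑ j ∈ Finset.range N, (if X n j then ((n.natAbs : ℝ) - mmin r n) * κ j ^ 2 else 0) := by
      intro n _
      by_cases hfin : {k | r n k}.Finite
      · have hv1 : v n = ((ψ n.natAbs - ψ (mmin r n) : ℝ) : ℂ) * coeff f n := by
          simp only [hv, hg]
          rw [if_pos hfin]
          push_cast
          ring
        have hdecomp : ψ (mmin r n) - ψ n.natAbs =
            ∑ j ∈ (Finset.range N).filter (X n), κ j := by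
          simp only [hψ]
          have h1 : ∀ k, ∑ j ∈ Finset.Ico k N, κ j =
              ∑ j ∈ Finset.range N, if k ≤ j then κ j else 0 := by
            intro k
            refine Eq.trans ?_ (Finset.sum_filter (fun j => k ≤ j) κ)
            refine Finset.sum_congr ?_ fun _ _ => rfl
            ext j
            simp only [Finset.mem_Ico, Finset.mem_filter, Finset.mem_range]
            tauto
          rw [h1, h1, ← Finset.sum_sub_distrib, Finset.sum_filter]
          refine Finset.sum_congr rfl fun j _ => ?_
          have hml := mmin_le r n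
          by_cases h2 : mmin r n ≤ j
          · by_cases h3 : n.natAbs ≤ j
            · rw [if_pos h2, if_pos h3, if_neg, sub_self]
              rintro ⟨_, _, h4⟩
              omega
            · rw [if_pos h2, if_neg h3, if_pos ⟨hfin, h2, not_le.mp h3⟩, sub_zero]
          · rw [if_neg h2, if_neg (by omega), if_neg, sub_self]
            rintro ⟨_, h4, _⟩
            exact h2 h4
        set Bn := (Finset.range N).filter (X n) with hBn
        have hcs : (∑ j ∈ Bn, κ j) ^ 2 ≤ (Bn.card : ℝ) * ∑ j ∈ Bn, κ j ^ 2 :=
          sq_sum_le_card_mul_sum_sq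
        have hcard : (Bn.card : ℝ) ≤ (n.natAbs : ℝ) - mmin r n := by
          have hsub : Bn ⊆ Finset.Ico (mmin r n) n.natAbs := by
            intro i hi
            have hXi : X n i := (Finset.mem_filter.mp hi).2
            exact Finset.mem_Ico.mpr ⟨hXi.2.1, hXi.2.2⟩
          have h1 : Bn.card ≤ n.natAbs - mmin r n := by
            have := Finset.card_le_card hsub
            rwa [Nat.card_Ico] at this
          rw [← Nat.cast_sub (mmin_le r n)]
          exact_mod_cast h1
        have hlen : (0 : ℝ) ≤ (n.natAbs : ℝ) - mmin r n := by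
          have : (mmin r n : ℝ) ≤ n.natAbs := by exact_mod_cast mmin_le r n
          linarith
        rw [hv1, norm_mul, mul_pow, Complex.norm_real, Real.norm_eq_abs, sq_abs,
          ← Finset.sum_filter, ← hBn]
        have h5 : (ψ n.natAbs - ψ (mmin r n)) ^ 2 ≤
            ∑ j ∈ Bn, ((n.natAbs : ℝ) - mmin r n) * κ j ^ 2 := by
          have : (ψ n.natAbs - ψ (mmin r n)) ^ 2 = (ψ (mmin r n) - ψ n.natAbs) ^ 2 := by ring
          rw [this, hdecomp]
          refine hcs.trans ?_
          rw [Finset.mul_sum]
          apply Finset.sum_le_sum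
          intro j hj
          exact mul_le_mul_of_nonneg_right hcard (sq_nonneg _)
        have h6 : ‖coeff f n‖ ^ 2 ≤ ‖f‖ ^ 2 :=
          pow_le_pow_left₀ (norm_nonneg _) (norm_coeff_le f n) 2
        calc (ψ n.natAbs - ψ (mmin r n)) ^ 2 * ‖coeff f n‖ ^ 2
            ≤ (∑ j ∈ Bn, ((n.natAbs : ℝ) - mmin r n) * κ j ^ 2) * ‖f‖ ^ 2 := by
              apply mul_le_mul h5 h6 (sq_nonneg _)
              exact Finset.sum_nonneg fun j _ => mul_nonneg hlen (sq_nonneg _)
          _ = _ := by ring
      · have h0 : coeff f n = 0 := hf2 n hfin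
        have : v n = 0 := by
          simp only [hv, hg]
          rw [if_neg hfin, h0]
          simp
        rw [this, norm_zero, zero_pow two_ne_zero]
        have hlen : (0 : ℝ) ≤ (n.natAbs : ℝ) - mmin r n := by
          have : (mmin r n : ℝ) ≤ n.natAbs := by exact_mod_cast mmin_le r n
          linarith
        have : 0 ≤ ∑ j ∈ Finset.range N,
            (if X n j then ((n.natAbs : ℝ) - mmin r n) * κ j ^ 2 else 0) := by
          apply Finset.sum_nonneg
          intro j _
          split_ifs
          · exact mul_nonneg hlen (sq_nonneg _)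
          · exact le_rfl
        positivity
    have hcount : ∀ j, ∑ n ∈ s.filter (fun n => X n j), ((n.natAbs : ℝ) - mmin r n) ≤ w j := by
      intro j
      refine h j (s.filter fun n => X n j) ?_
      intro n hn
      exact (Finset.mem_filter.mp hn).2
    have htotal : ∑ n ∈ s, ‖v n‖ ^ 2 ≤ ‖f‖ ^ 2 * (1 / T) := by
      calc ∑ n ∈ s, ‖v n‖ ^ 2 ≤ ∑ n ∈ s, ‖f‖ ^ 2 *
            ∑ j ∈ Finset.range N,
              (if X n j then ((n.natAbs : ℝ) - mmin r n) * κ j ^ 2 else 0) :=
              Finset.sum_le_sum hvn
        _ = ‖f‖ ^ 2 * ∑ j ∈ Finset.range N, ∑ n ∈ s,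
              (if X n j then ((n.natAbs : ℝ) - mmin r n) * κ j ^ 2 else 0) := by
            rw [← Finset.mul_sum, Finset.sum_comm]
        _ ≤ ‖f‖ ^ 2 * (1 / T) := by
            apply mul_le_mul_of_nonneg_left _ (sq_nonneg _)
            calc ∑ j ∈ Finset.range N, ∑ n ∈ s,
                  (if X n j then ((n.natAbs : ℝ) - mmin r n) * κ j ^ 2 else 0)
                ≤ ∑ j ∈ Finset.range N, 1 / T * (a j / T) := by
                  apply Finset.sum_le_sum
                  intro j hj
                  rw [← Finset.sum_filter, ← Finset.sum_mul]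
                  have hκj : κ j = a j / T := hκlt j (Finset.mem_range.mp hj)
                  have hwj := hpos j
                  calc (∑ n ∈ s.filter (fun n => X n j), ((n.natAbs : ℝ) - mmin r n)) * κ j ^ 2
                      ≤ w j * κ j ^ 2 := mul_le_mul_of_nonneg_right (hcount j) (sq_nonneg _)
                    _ = 1 / T * (a j / T) := by
                        rw [hκj]
                        simp only [ha]
                        field_simp
              _ = 1 / T := by
                  rw [← Finset.mul_sum, ← Finset.sum_div, ← hTdef, div_self hT0.ne', mul_one]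
    have herr2 : ‖Psi κ N f - ∑ n ∈ s, g n • ex n‖ ≤ ε / 4 := by
      rw [hdiff]
      have h1 := (norm_sum_ex_sq_le s v).trans htotal
      have h2 : ‖f‖ ^ 2 * (1 / T) ≤ (ε / 4) ^ 2 := by
        have : 64 * ‖f‖ ^ 2 / ε ^ 2 ≤ T := by linarith
        rw [div_le_iff₀ (by positivity)] at this
        rw [← mul_div_assoc, div_le_iff₀ hT0]
        nlinarith [sq_nonneg ‖f‖]
      exact (sq_le_sq₀ (norm_nonneg _) (by positivity)).mp (h1.trans h2)
    have e : f - ∑ n ∈ s, g n • ex n =
        (Psi κ N f - ∑ n ∈ s, g n • ex n) - (Psi κ N f - f) := by abel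
    rw [e]
    refine (norm_sub_le _ _).trans_lt ?_
    linarith

/-- WPO -/
theorem wpo : T_WPO := by
  intro w hpos hmono hdiv r hr
  exact synthesis_of_approx r (approx_cross r w hpos hmono hdiv hr)

end Pool.Agent.H5.GT
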